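import Pool.Agent.Q234.PL.Stm

/-!
# Project PL of helper234: the job PepsKernel
-/

set_option autoImplicit false

open scoped BigOperators Matrix
open Finset Pool.Agent.TH235.PP Pool.Agent.Q234.PL

namespace Pool.Agent.Q182.PL

section split

variable {E K : Type} (bd inn : E → Prop) [DecidablePred bd] [DecidablePred inn]

/-- glue three labellings -/
def glue (β : {e // bd e} → K) (a : {e // ¬ bd e ∧ inn e} → K)
    (r : {e // ¬ bd e ∧ ¬ inn e} → K) : E → K := fun e =>
  if h : bd e then β ⟨e, h⟩ else if h2 : inn e then a ⟨e, h, h2⟩ else r ⟨e, h, h2⟩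

/-- the corresponding equivalence -/
def glueEquiv : (E → K) ≃ ({e // bd e} → K) × (({e // ¬ bd e ∧ inn e} → K) ×
    ({e // ¬ bd e ∧ ¬ inn e} → K)) where
  toFun l := (fun e => l e, fun e => l e, fun e => l e)
  invFun x := glue bd inn x.1 x.2.1 x.2.2
  left_inv l := by
    funext e
    show (if h : bd e then l e else if h2 : inn e then l e else l e) = l e
    split_ifs <;> rfl
  right_inv x := by
    obtain ⟨β, a, r⟩ := x
    refine Prod.ext ?_ (Prod.ext ?_ ?_)
    · funext e
      show glue bd inn β a r e = β e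
      unfold glue
      rw [dif_pos e.2]
    · funext e
      show glue bd inn β a r e = a e
      unfold glue
      rw [dif_neg e.2.1, dif_pos e.2.2]
    · funext e
      show glue bd inn β a r e = r e
      unfold glue
      rw [dif_neg e.2.1, dif_neg e.2.2]

theorem split_sum [Fintype E] [DecidableEq E] [Fintype K] (k0 : K) (F G : (E → K) → ℂ)
    (hF : ∀ l l' : E → K, (∀ e, bd e ∨ inn e → l e = l' e) → F l = F l')
    (hG : ∀ l l' : E → K, (∀ e, bd e ∨ ¬ inn e → l e = l' e) → G l = G l') :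
    ∑ l : E → K, F l * G l = ∑ β : {e // bd e} → K,
      (∑ a, F (glue bd inn β a fun _ => k0)) * (∑ r, G (glue bd inn β (fun _ => k0) r)) := by
  have h1 : ∑ l : E → K, F l * G l = ∑ x : ({e // bd e} → K) × (({e // ¬ bd e ∧ inn e} → K) ×
      ({e // ¬ bd e ∧ ¬ inn e} → K)), F (glue bd inn x.1 x.2.1 x.2.2) *
        G (glue bd inn x.1 x.2.1 x.2.2) := by
    refine Fintype.sum_equiv (glueEquiv bd inn) _ _ fun l => ?_
    have h2 : glue bd inn (glueEquiv bd inn l).1 (glueEquiv bd inn l).2.1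
        (glueEquiv bd inn l).2.2 = l := (glueEquiv bd inn).left_inv l
    rw [h2]
  rw [h1, Fintype.sum_prod_type]
  refine sum_congr rfl fun β _ => ?_
  rw [Fintype.sum_prod_type, sum_mul_sum]
  refine sum_congr rfl fun a _ => sum_congr rfl fun r _ => ?_
  dsimp only
  congr 1
  · refine hF _ _ fun e he => ?_
    unfold glue
    by_cases h : bd e
    · rw [dif_pos h, dif_pos h]
    · rw [dif_neg h, dif_neg h]
      have h3 : inn e := he.resolve_left h
      rw [dif_pos h3, dif_pos h3]
  · refine hG _ _ fun e he => ?_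
    unfold glue
    by_cases h : bd e
    · rw [dif_pos h, dif_pos h]
    · rw [dif_neg h, dif_neg h]
      have h3 : ¬ inn e := he.resolve_left h
      rw [dif_neg h3, dif_neg h3]

end split

section torus

variable {L : ℕ} [NeZero L] (m : ℕ)

/-- the block -/
def inB (x : Site L) : Prop := x.1.val < m ∧ x.2.val < m

instance : DecidablePred (inB (L := L) m) := fun x => by unfold inB; infer_instance

/-- the boundary edges -/
def bd (e : Site L ⊕ Site L) : Prop :=
  match e with
  | .inl x => ¬ (inB m x ↔ inB m (x.1 + 1, x.2))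
  | .inr x => ¬ (inB m x ↔ inB m (x.1, x.2 + 1))

/-- the inner edges -/
def inn (e : Site L ⊕ Site L) : Prop :=
  match e with
  | .inl x => inB m x
  | .inr x => inB m x

theorem val_succ (x : ZMod L) : (x + 1).val = (x.val + 1) % L := by
  rw [ZMod.val_add, ZMod.val_one_eq_one_mod, Nat.add_mod_mod]

theorem edge_cases (_hm : m < L) (x : ZMod L) (h : ¬ (x.val < m ↔ (x + 1).val < m)) :
    x = ((m - 1 : ℕ) : ZMod L) ∨ x = ((L - 1 : ℕ) : ZMod L) := by
  have hx : x.val < L := ZMod.val_lt x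
  have hcast : x = ((x.val : ℕ) : ZMod L) := (ZMod.natCast_zmod_val x).symm
  rw [val_succ] at h
  rcases Nat.lt_or_ge (x.val + 1) L with h1 | h1
  · rw [Nat.mod_eq_of_lt h1] at h
    left
    have h2 : x.val = m - 1 := by omega
    rw [← h2]
    exact hcast
  · right
    have h2 : x.val = L - 1 := by omega
    rw [← h2]
    exact hcast

/-- the possible boundary edges -/
def bf (q : Fin 4 × Fin m) : Site L ⊕ Site L :=
  if q.1 = 0 then .inl (((m - 1 : ℕ) : ZMod L), ((q.2 : ℕ) : ZMod L))
  else if q.1 = 1 then .inl (((L - 1 : ℕ) : ZMod L), ((q.2 : ℕ) : ZMod L))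
  else if q.1 = 2 then .inr (((q.2 : ℕ) : ZMod L), ((m - 1 : ℕ) : ZMod L))
  else .inr (((q.2 : ℕ) : ZMod L), ((L - 1 : ℕ) : ZMod L))

theorem bd_mem (hm : m < L) (e : Site L ⊕ Site L) (h : bd m e) : ∃ q, bf m q = e := by
  rcases e with x | x
  · have h1 : ¬ (inB m x ↔ inB m (x.1 + 1, x.2)) := h
    unfold inB at h1
    simp only at h1
    have h2 : x.2.val < m := by
      by_contra hc
      exact h1 ⟨fun h => absurd h.2 hc, fun h => absurd h.2 hc⟩
    have h3 : ¬ (x.1.val < m ↔ (x.1 + 1).val < m) := by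
      intro hc
      exact h1 ⟨fun h => ⟨hc.1 h.1, h.2⟩, fun h => ⟨hc.2 h.1, h.2⟩⟩
    have h4 : ((x.2.val : ℕ) : ZMod L) = x.2 := ZMod.natCast_zmod_val x.2
    rcases edge_cases m hm x.1 h3 with h5 | h5
    · refine ⟨(0, ⟨x.2.val, h2⟩), ?_⟩
      unfold bf
      rw [if_pos rfl]
      simp only [h4, ← h5]
    · refine ⟨(1, ⟨x.2.val, h2⟩), ?_⟩
      unfold bf
      rw [if_neg (by decide : ¬ ((1 : Fin 4) = 0)), if_pos rfl]
      simp only [h4, ← h5]
  · have h1 : ¬ (inB m x ↔ inB m (x.1, x.2 + 1)) := h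
    unfold inB at h1
    simp only at h1
    have h2 : x.1.val < m := by
      by_contra hc
      exact h1 ⟨fun h => absurd h.1 hc, fun h => absurd h.1 hc⟩
    have h3 : ¬ (x.2.val < m ↔ (x.2 + 1).val < m) := by
      intro hc
      exact h1 ⟨fun h => ⟨h.1, hc.1 h.2⟩, fun h => ⟨h.1, hc.2 h.2⟩⟩
    have h4 : ((x.1.val : ℕ) : ZMod L) = x.1 := ZMod.natCast_zmod_val x.1
    rcases edge_cases m hm x.2 h3 with h5 | h5
    · refine ⟨(2, ⟨x.1.val, h2⟩), ?_⟩
      unfold bf
      rw [if_neg (by decide : ¬ ((2 : Fin 4) = 0)), if_neg (by decide : ¬ ((2 : Fin 4) = 1)),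
        if_pos rfl]
      simp only [h4, ← h5]
    · refine ⟨(3, ⟨x.1.val, h2⟩), ?_⟩
      unfold bf
      rw [if_neg (by decide : ¬ ((3 : Fin 4) = 0)), if_neg (by decide : ¬ ((3 : Fin 4) = 1)),
        if_neg (by decide : ¬ ((3 : Fin 4) = 2))]
      simp only [h4, ← h5]

open Classical in
theorem card_bd (hm : m < L) : Fintype.card {e : Site L ⊕ Site L // bd m e} ≤ 4 * m := by
  have h1 : Fintype.card {e : Site L ⊕ Site L // bd m e} ≤ Fintype.card (Fin 4 × Fin m) := by
    have h2 : ∀ e : {e : Site L ⊕ Site L // bd m e}, ∃ q, bf m q = e.1 := fun e =>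
      bd_mem m hm e.1 e.2
    choose f hf using h2
    refine Fintype.card_le_of_injective f fun a b hab => ?_
    apply Subtype.ext
    rw [← hf a, ← hf b, hab]
  simpa using h1

omit [NeZero L] in
theorem sub_add_self (x : Site L) : ((x.1 - 1, x.2).1 + 1, (x.1 - 1, x.2).2) = x := by
  simp

omit [NeZero L] in
theorem sub_add_self' (x : Site L) : ((x.1, x.2 - 1).1, (x.1, x.2 - 1).2 + 1) = x := by
  simp

end torus

open Classical in
theorem main : PepsKernel := by
  intro L m D _ φ hm hD hφ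
  obtain ⟨A, hA⟩ := hφ
  have hm1 : 1 ≤ m := by
    rcases Nat.eq_zero_or_pos m with h | h
    · rw [h] at hD
      simp at hD
    · exact h
  have hmm : 1 < 2 ^ (m * m) := Nat.one_lt_two_pow (by positivity)
  -- the case without labels
  rcases Nat.eq_zero_or_pos D with hD0 | hD0
  · subst hD0
    refine ⟨fun _ => 1, fun h => one_ne_zero (congrFun h fun _ => 0), fun t => ?_⟩
    refine sum_eq_zero fun p _ => ?_
    rw [hA]
    unfold contract
    have : IsEmpty (Site L → Fin 0) := ⟨fun f => (f 0).elim0⟩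
    rw [Fintype.sum_empty, mul_zero]
  -- the two factors
  let k0 : Fin D := ⟨0, hD0⟩
  let TT : Site L → Fin 2 → (Site L ⊕ Site L → Fin D) → ℂ := fun x a l =>
    A x a (l (.inl (x.1 - 1, x.2))) (l (.inl x)) (l (.inr (x.1, x.2 - 1))) (l (.inr x))
  let F : (Fin m × Fin m → Fin 2) → (Site L ⊕ Site L → Fin D) → ℂ := fun p l =>
    ∏ x ∈ univ.filter (inB (L := L) m), TT x (tpaste p (fun _ => 0) x) l
  let G : (Site L → Fin 2) → (Site L ⊕ Site L → Fin D) → ℂ := fun t l =>
    ∏ x ∈ univ.filter (fun x => ¬ inB (L := L) m x), TT x (t x) l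
  have hprod : ∀ p t, φ (tpaste p t) = ∑ l, F p l * G t l := by
    intro p t
    rw [hA]
    unfold contract
    rw [← Fintype.sum_prod_type']
    refine Fintype.sum_equiv (Equiv.sumArrowEquivProdArrow (Site L) (Site L) (Fin D)).symm _ _
      fun l => ?_
    obtain ⟨h, v⟩ := l
    rw [← prod_filter_mul_prod_filter_not univ (inB (L := L) m)]
    congr 1
    · refine prod_congr rfl fun x hx => ?_
      have hx' : x.1.val < m ∧ x.2.val < m := (mem_filter.1 hx).2
      have h1 : tpaste p t x = tpaste p (fun _ => 0) x := by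
        unfold tpaste
        rw [dif_pos hx', dif_pos hx']
      rw [h1]
      rfl
    · refine prod_congr rfl fun x hx => ?_
      have hx' : ¬ (x.1.val < m ∧ x.2.val < m) := (mem_filter.1 hx).2
      have h1 : tpaste p t x = t x := by
        unfold tpaste
        rw [dif_neg hx']
      rw [h1]
      rfl
  have hF : ∀ p, ∀ l l' : Site L ⊕ Site L → Fin D, (∀ e, bd m e ∨ inn m e → l e = l' e) →
      F p l = F p l' := by
    intro p l l' h
    refine prod_congr rfl fun x hx => ?_
    have hx' : inB m x := (mem_filter.1 hx).2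
    have e1 : l (.inl (x.1 - 1, x.2)) = l' (.inl (x.1 - 1, x.2)) := by
      apply h
      by_cases hc : inB m (x.1 - 1, x.2)
      · exact Or.inr hc
      · left
        show ¬ (inB m (x.1 - 1, x.2) ↔ inB m ((x.1 - 1, x.2).1 + 1, (x.1 - 1, x.2).2))
        rw [sub_add_self]
        exact fun h => hc (h.2 hx')
    have e2 : l (.inl x) = l' (.inl x) := h _ (Or.inr hx')
    have e3 : l (.inr (x.1, x.2 - 1)) = l' (.inr (x.1, x.2 - 1)) := by
      apply h
      by_cases hc : inB m (x.1, x.2 - 1)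
      · exact Or.inr hc
      · left
        show ¬ (inB m (x.1, x.2 - 1) ↔ inB m ((x.1, x.2 - 1).1, (x.1, x.2 - 1).2 + 1))
        rw [sub_add_self']
        exact fun h => hc (h.2 hx')
    have e4 : l (.inr x) = l' (.inr x) := h _ (Or.inr hx')
    show A x _ _ _ _ _ = A x _ _ _ _ _
    rw [e1, e2, e3, e4]
  have hG : ∀ t, ∀ l l' : Site L ⊕ Site L → Fin D, (∀ e, bd m e ∨ ¬ inn m e → l e = l' e) →
      G t l = G t l' := by
    intro t l l' h
    refine prod_congr rfl fun x hx => ?_
    have hx' : ¬ inB m x := (mem_filter.1 hx).2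
    have e1 : l (.inl (x.1 - 1, x.2)) = l' (.inl (x.1 - 1, x.2)) := by
      apply h
      by_cases hc : inB m (x.1 - 1, x.2)
      · left
        show ¬ (inB m (x.1 - 1, x.2) ↔ inB m ((x.1 - 1, x.2).1 + 1, (x.1 - 1, x.2).2))
        rw [sub_add_self]
        exact fun h => hx' (h.1 hc)
      · exact Or.inr hc
    have e2 : l (.inl x) = l' (.inl x) := h _ (Or.inr hx')
    have e3 : l (.inr (x.1, x.2 - 1)) = l' (.inr (x.1, x.2 - 1)) := by
      apply h
      by_cases hc : inB m (x.1, x.2 - 1)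
      · left
        show ¬ (inB m (x.1, x.2 - 1) ↔ inB m ((x.1, x.2 - 1).1, (x.1, x.2 - 1).2 + 1))
        rw [sub_add_self']
        exact fun h => hx' (h.1 hc)
      · exact Or.inr hc
    have e4 : l (.inr x) = l' (.inr x) := h _ (Or.inr hx')
    show A x _ _ _ _ _ = A x _ _ _ _ _
    rw [e1, e2, e3, e4]
  -- linear algebra
  let Lm : ((Fin m × Fin m → Fin 2) → ℂ) →ₗ[ℂ] ({e : Site L ⊕ Site L // bd m e} → Fin D) → ℂ :=
    Matrix.mulVecLin (Matrix.of fun (β : {e : Site L ⊕ Site L // bd m e} → Fin D)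
      (p : Fin m × Fin m → Fin 2) => ∑ a, F p (glue (bd m) (inn m) β a fun _ => k0))
  have hcard : Module.finrank ℂ (({e : Site L ⊕ Site L // bd m e} → Fin D) → ℂ) <
      Module.finrank ℂ ((Fin m × Fin m → Fin 2) → ℂ) := by
    rw [Module.finrank_fintype_fun_eq_card, Module.finrank_fintype_fun_eq_card]
    simp only [Fintype.card_fun, Fintype.card_fin, Fintype.card_prod]
    refine lt_of_le_of_lt ?_ hD
    exact Nat.pow_le_pow_right hD0 (card_bd m hm)
  have hker := LinearMap.ker_ne_bot_of_finrank_lt (f := Lm) hcard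
  obtain ⟨v, hv, hv0⟩ := (Submodule.ne_bot_iff _).1 hker
  refine ⟨v, hv0, fun t => ?_⟩
  have hv' : ∀ β : {e : Site L ⊕ Site L // bd m e} → Fin D,
      ∑ p, (∑ a, F p (glue (bd m) (inn m) β a fun _ => k0)) * v p = 0 := fun β =>
    congrFun (LinearMap.mem_ker.1 hv) β
  have h1 : ∀ p, φ (tpaste p t) = ∑ β : {e : Site L ⊕ Site L // bd m e} → Fin D,
      (∑ a, F p (glue (bd m) (inn m) β a fun _ => k0)) *
        (∑ r, G t (glue (bd m) (inn m) β (fun _ => k0) r)) := by
    intro p
    rw [hprod]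
    exact split_sum (bd m) (inn m) k0 (F p) (G t) (hF p) (hG t)
  calc ∑ p, v p * φ (tpaste p t)
      = ∑ p, ∑ β : {e : Site L ⊕ Site L // bd m e} → Fin D,
        (∑ r, G t (glue (bd m) (inn m) β (fun _ => k0) r)) *
        ((∑ a, F p (glue (bd m) (inn m) β a fun _ => k0)) * v p) := by
        refine sum_congr rfl fun p _ => ?_
        rw [h1 p, mul_sum]
        refine sum_congr rfl fun β _ => ?_
        ring
    _ = 0 := by
        rw [sum_comm]
        refine sum_eq_zero fun β _ => ?_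
        rw [← mul_sum, hv' β, mul_zero]

end Pool.Agent.Q182.PL
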